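import Pool.Agent.E8helper17.CND.Final
import Pool.Agent.E8helper38.CND.Cyc
import Pool.Agent.E8helper55.CNDBASE
import Pool.Agent.E8helper25.CND.Notr
import Pool.Agent.E8helper78.CND.Long

/-!
# CND graphs of arbitrarily large girth

A CND graph is a connected nontraceable graph in which every vertex is an endvertex of a longest path.
We show that for every `g` there is a CND graph of girth at least `g`.

Step 1.  A finite graph `H` of girth at least `g` with four terminals, pairwise at distance at least `g`,
and with a Hamiltonian path from every vertex to every terminal: a long cycle with greedily chosen chords,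
the Hamiltonian paths being found by rotations.

Step 2.  Take `K_4` and replace each vertex `i` by two copies of `H` and three ports `x i j` (`j ≠ i`);
the port `x i j` is joined to the `j`-th terminals of both copies, the `i`-th terminals of both copies are
joined to each other, and each edge `ij` of `K_4` becomes a vertex `m ij` joined to `x i j` and `x j i`.
A path can pass through each of the four parts at most once on its way from one `m` to another, so it
misses at least one of the six vertices `m ij`; and from every vertex there is a path that misses exactly
one vertex.
-/

set_option autoImplicit false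

namespace Pool.Agent.Results.MP_03af38_co.LargeGirthCNDH17

/-- `G` is traceable: it has a Hamiltonian path. -/
def IsTraceable {V : Type} (G : SimpleGraph V) : Prop :=
  ∃ (u v : V) (p : G.Walk u v), p.IsPath ∧ ∀ x, x ∈ p.support

/-- `v` is an endvertex of a longest path of `G`. -/
def StartsLongest {V : Type} (G : SimpleGraph V) (v : V) : Prop :=
  ∃ (w : V) (p : G.Walk v w), p.IsPath ∧
    ∀ (a b : V) (q : G.Walk a b), q.IsPath → q.length ≤ p.length

/-- CND graph: connected, not traceable, every vertex is an endvertex of a longest path. -/
def IsCND {V : Type} (G : SimpleGraph V) : Prop :=
  G.Connected ∧ ¬ IsTraceable G ∧ ∀ v : V, StartsLongest G v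

/-- **Positive answer to Q1.** For every `g` there is a finite CND graph which has a cycle and whose
girth is at least `g`. -/
theorem result : ∀ g : ℕ, ∃ (V : Type) (_ : Finite V) (G : SimpleGraph V),
    IsCND G ∧ ¬ G.IsAcyclic ∧ g ≤ G.girth :=
  H17CND.result_of Pool.Agent.E8helper38.CND.CYC Pool.Agent.E8helper55.CNDBASE.BASE H78CNDLong.t_LONG
    Pool.Agent.E8helper25.CND.t_NOTR

end Pool.Agent.Results.MP_03af38_co.LargeGirthCNDH17
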